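import Pool.Agent.Helper14.AY.GoalsA

/-! # AY: CVR, the derivative with respect to the scale -/

open Complex Metric Set Filter Topology MeasureTheory
open scoped ContDiff ComplexConjugate ComplexOrder Manifold Matrix

namespace Pool.Agent.Helper34.AY

open Pool.Agent.Helper95.Lin Pool.Agent.Helper16.Abund Pool.Agent.Helper92.Orb Pool.Agent.Helper10.SP
  Pool.Agent.Helper95.RK Pool.Agent.Helper57.HS Pool.Agent.Helper14.AY

lemma finrank_Cn (n : ℕ) : Module.finrank ℝ (Cn n) = 2 * n := by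
  have h : Module.finrank ℝ ℂ = 2 := Complex.finrank_real_complex
  show Module.finrank ℝ (Fin n → ℂ) = 2 * n
  rw [Module.finrank_pi_fintype]
  simp [h, mul_comm]

/-- The substitution `z = s • y`. -/
lemma Cv_subst {n : ℕ} (k f : Cn n → ℝ) {s : ℝ} (hs : 0 < s) (x : Cn n) :
    Cv k f s x = (s ^ (2 * n))⁻¹ * ∫ z, f (x - z) * k (s⁻¹ • z) := by
  have h := Measure.integral_comp_smul (volume : Measure (Cn n)) (fun z => f (x - z) * k (s⁻¹ • z)) s
  rw [finrank_Cn, abs_of_pos (by positivity), smul_eq_mul] at h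
  rw [← h]
  unfold Cv
  refine integral_congr_ae (Eventually.of_forall fun y => ?_)
  simp only [smul_smul, inv_mul_cancel₀ hs.ne', one_smul]

lemma integrable_Cv {n : ℕ} {k f : Cn n → ℝ} (hk : Continuous k) (hkc : HasCompactSupport k)
    (hf : Continuous f) (r : ℝ) (x : Cn n) : Integrable fun y => f (x - r • y) * k y := by
  refine Continuous.integrable_of_hasCompactSupport ?_ ?_
  · have : Continuous fun y : Cn n => f (x - r • y) := hf.comp (by fun_prop)
    exact this.mul hk
  · exact hkc.mul_left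

/-- CVR. -/
theorem cvr : S_CVR := by
  intro n k f hk hf x r hr
  have hk1 : ContDiff ℝ 1 k := hk.1.of_le (WithTop.coe_le_coe.2 (le_top : (1 : ℕ∞) ≤ ⊤))
  have hkd : Continuous (fderiv ℝ k) := hk1.continuous_fderiv one_ne_zero
  have hkdiff : Differentiable ℝ k := hk1.differentiable one_ne_zero
  have hkdc : HasCompactSupport (fderiv ℝ k) := hk.2.fderiv ℝ
  obtain ⟨Bk, hBk⟩ := hkd.bounded_above_of_compact_support hkdc
  obtain ⟨ρ, hρ⟩ := hk.2.isCompact.isBounded.subset_closedBall (0 : Cn n)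
  set ρ' : ℝ := 2 * r * |ρ| with hρ'
  have hρ'0 : 0 ≤ ρ' := by positivity
  obtain ⟨Bf, hBf⟩ := (isCompact_closedBall (0 : Cn n) ρ').exists_bound_of_continuousOn
    (f := fun z => f (x - z)) (hf.comp (by fun_prop)).continuousOn
  have hBk0 : 0 ≤ Bk := (norm_nonneg _).trans (hBk 0)
  have hBf0 : 0 ≤ Bf := (norm_nonneg _).trans (hBf 0 (mem_closedBall_self hρ'0))
  set F : ℝ → Cn n → ℝ := fun s z => f (x - z) * k (s⁻¹ • z) with hF
  set F' : ℝ → Cn n → ℝ := fun s z => f (x - z) * fderiv ℝ k (s⁻¹ • z) (-(s ^ 2)⁻¹ • z) with hF'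
  have hFc : ∀ s, 0 < s → Continuous (F s) := by
    intro s _
    have h1 : Continuous fun z : Cn n => f (x - z) := hf.comp (by fun_prop)
    have h2 : Continuous fun z : Cn n => k (s⁻¹ • z) := hk.1.continuous.comp (by fun_prop)
    exact h1.mul h2
  have hF'c : ∀ s, 0 < s → Continuous (F' s) := by
    intro s _
    have h1 : Continuous fun z : Cn n => f (x - z) := hf.comp (by fun_prop)
    have h2 : Continuous fun z : Cn n => fderiv ℝ k (s⁻¹ • z) := hkd.comp (by fun_prop)
    exact h1.mul (h2.clm_apply (by fun_prop))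
  have hsupp : ∀ s ∈ Ioo (r / 2) (2 * r), ∀ z : Cn n, s⁻¹ • z ∈ tsupport k →
      z ∈ closedBall (0 : Cn n) ρ' := by
    intro s hs z hz
    have hs0 : 0 < s := (half_pos hr).trans hs.1
    have h1 := hρ hz
    rw [mem_closedBall_zero_iff, norm_smul, norm_inv, Real.norm_of_nonneg hs0.le,
      inv_mul_le_iff₀ hs0] at h1
    rw [mem_closedBall_zero_iff]
    calc ‖z‖ ≤ s * ρ := h1
      _ ≤ s * |ρ| := mul_le_mul_of_nonneg_left (le_abs_self _) hs0.le
      _ ≤ 2 * r * |ρ| := mul_le_mul_of_nonneg_right hs.2.le (abs_nonneg _)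
  set M : ℝ := Bf * (Bk * (((r / 2) ^ 2)⁻¹ * ρ')) with hM
  have hM0 : 0 ≤ M := by positivity
  have hbound : ∀ z, ∀ s ∈ Ioo (r / 2) (2 * r), ‖F' s z‖ ≤
      (closedBall (0 : Cn n) ρ').indicator (fun _ => M) z := by
    intro z s hs
    have hs0 : 0 < s := (half_pos hr).trans hs.1
    by_cases hz : s⁻¹ • z ∈ tsupport k
    · have hz' := hsupp s hs z hz
      rw [indicator_of_mem hz']
      have h1 : ‖(-(s ^ 2)⁻¹) • z‖ ≤ ((r / 2) ^ 2)⁻¹ * ρ' := by
        rw [norm_smul, norm_neg, norm_inv, norm_pow, Real.norm_of_nonneg hs0.le]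
        have h2 : ‖z‖ ≤ ρ' := mem_closedBall_zero_iff.1 hz'
        have h3 : (s ^ 2)⁻¹ ≤ ((r / 2) ^ 2)⁻¹ := by
          apply inv_anti₀ (by positivity)
          exact pow_le_pow_left₀ (by positivity) hs.1.le 2
        exact mul_le_mul h3 h2 (norm_nonneg _) (by positivity)
      calc ‖F' s z‖ = ‖f (x - z)‖ * ‖fderiv ℝ k (s⁻¹ • z) (-(s ^ 2)⁻¹ • z)‖ := norm_mul _ _
        _ ≤ Bf * (Bk * (((r / 2) ^ 2)⁻¹ * ρ')) := by
          refine mul_le_mul (hBf z hz') ?_ (norm_nonneg _) hBf0
          refine (ContinuousLinearMap.le_opNorm _ _).trans ?_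
          exact mul_le_mul (hBk _) h1 (norm_nonneg _) hBk0
    · have h1 : fderiv ℝ k (s⁻¹ • z) = 0 := by
        have h2 : s⁻¹ • z ∉ tsupport (fderiv ℝ k) := fun h => hz (tsupport_fderiv_subset ℝ h)
        exact image_eq_zero_of_notMem_tsupport h2
      have h3 : F' s z = 0 := by
        simp only [hF', h1, zero_apply, mul_zero]
      rw [h3, norm_zero]
      exact indicator_nonneg (fun _ _ => hM0) z
  have hJ := (hasDerivAt_integral_of_dominated_loc_of_deriv_le (μ := (volume : Measure (Cn n)))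
    (F := F) (F' := F') (x₀ := r) (s := Ioo (r / 2) (2 * r))
    (bound := (closedBall (0 : Cn n) ρ').indicator (fun _ => M))
    (Ioo_mem_nhds (by linarith) (by linarith))
    (by
      filter_upwards [lt_mem_nhds hr] with s hs
      exact (hFc s hs).aestronglyMeasurable)
    (by
      refine (hFc r hr).integrable_of_hasCompactSupport ?_
      refine HasCompactSupport.mul_left ?_
      exact hk.2.comp_homeomorph (Homeomorph.smulOfNeZero r⁻¹ (inv_ne_zero hr.ne')))
    (hF'c r hr).aestronglyMeasurable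
    (Eventually.of_forall hbound)
    (by
      rw [integrable_indicator_iff measurableSet_closedBall]
      exact integrableOn_const (isCompact_closedBall _ _).measure_lt_top.ne)
    (by
      refine Eventually.of_forall fun z s hs => ?_
      have hs0 : 0 < s := (half_pos hr).trans hs.1
      have h1 : HasDerivAt (fun t : ℝ => t⁻¹ • z) (-(s ^ 2)⁻¹ • z) s :=
        (hasDerivAt_inv hs0.ne').smul_const z
      have h2 := ((hkdiff (s⁻¹ • z)).hasFDerivAt.comp_hasDerivAt s h1)
      exact h2.const_mul (f (x - z)))).2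
  -- the factor
  have hfac : HasDerivAt (fun s : ℝ => (s ^ (2 * n))⁻¹) (-(2 * n : ℝ) * r⁻¹ * (r ^ (2 * n))⁻¹) r := by
    have h1 : HasDerivAt (fun s : ℝ => (s ^ (2 * n))⁻¹)
        (-(((2 * n : ℕ) : ℝ) * r ^ (2 * n - 1)) / (r ^ (2 * n)) ^ 2) r :=
      (hasDerivAt_pow (2 * n) r).inv (pow_ne_zero _ hr.ne')
    refine h1.congr_deriv ?_
    rcases Nat.eq_zero_or_pos n with rfl | hn
    · simp
    · obtain ⟨m, hm⟩ : ∃ m, 2 * n = m + 1 := ⟨2 * n - 1, by omega⟩
      have h2 : ((2 * n : ℕ) : ℝ) = 2 * n := by push_cast; ring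
      rw [h2, hm, Nat.add_sub_cancel]
      field_simp
      ring
  have hprod := hfac.mul hJ
  have heq : (fun s => Cv k f s x) =ᶠ[𝓝 r] fun s => (s ^ (2 * n))⁻¹ * ∫ z, F s z := by
    filter_upwards [lt_mem_nhds hr] with s hs
    exact Cv_subst k f hs x
  refine (hprod.congr_of_eventuallyEq heq).congr_deriv ?_
  have e1 : Cv k f r x = (r ^ (2 * n))⁻¹ * ∫ z, F r z := Cv_subst k f hr x
  have e2 : Cv (fun y => fderiv ℝ k y y) f r x =
      (r ^ (2 * n))⁻¹ * ∫ z, f (x - z) * fderiv ℝ k (r⁻¹ • z) (r⁻¹ • z) :=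
    Cv_subst (fun y => fderiv ℝ k y y) f hr x
  have e3 : ∫ z, F' r z = -r⁻¹ * ∫ z, f (x - z) * fderiv ℝ k (r⁻¹ • z) (r⁻¹ • z) := by
    rw [← integral_const_mul]
    refine integral_congr_ae (Eventually.of_forall fun z => ?_)
    simp only [hF', map_smul, smul_eq_mul]
    field_simp
  have e4 : Cv (Eu k) f r x = 2 * n * Cv k f r x + Cv (fun y => fderiv ℝ k y y) f r x := by
    unfold Cv
    rw [← integral_const_mul, ← integral_add]
    · refine integral_congr_ae (Eventually.of_forall fun y => ?_)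
      simp only [Eu]
      ring
    · exact (integrable_Cv hk.1.continuous hk.2 hf r x).const_mul _
    · refine integrable_Cv (hkd.clm_apply continuous_id) ?_ hf r x
      refine hkdc.mono fun y hy => ?_
      rw [Function.mem_support] at hy ⊢
      intro h0
      apply hy
      rw [h0]
      rfl
  rw [e4, e1, e2, e3]
  ring

end Pool.Agent.Helper34.AY
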