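import Pool.Agent.Helper14.AY.GoalsB

/-! # AY: LIMD, limits of functions with equi-Hölder derivatives -/

open Complex Metric Set Filter Topology MeasureTheory
open scoped ContDiff ComplexConjugate ComplexOrder Manifold Matrix

namespace Pool.Agent.Helper34.AY

open Pool.Agent.Helper95.Lin Pool.Agent.Helper16.Abund Pool.Agent.Helper92.Orb Pool.Agent.Helper10.SP
  Pool.Agent.Helper95.RK Pool.Agent.Helper57.HS Pool.Agent.Helper14.AY

/-- Taylor's formula on a convex set where the derivative is Hölder. -/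
lemma taylor_HB {n : ℕ} {E : Type} [NormedAddCommGroup E] [NormedSpace ℝ E] {a K : ℝ}
    {B : Set (Cn n)} {f : Cn n → E} (ha : 0 < a) (hB : IsOpen B) (hc : Convex ℝ B)
    (hf : ContDiffOn ℝ 1 f B) (hH : HB a B K fun x => fderiv ℝ f x) {x y : Cn n} (hx : x ∈ B)
    (hy : y ∈ B) : ‖f y - f x - fderiv ℝ f x (y - x)‖ ≤ |K| * ‖y - x‖ ^ a * ‖y - x‖ := by
  have hseg : segment ℝ x y ⊆ B := hc.segment_subset hx hy
  refine Convex.norm_image_sub_le_of_norm_hasFDerivWithin_le' (s := segment ℝ x y)
    (f' := fun z => fderiv ℝ f z) (fun z hz => ?_) (fun z hz => ?_) (convex_segment x y)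
    (left_mem_segment ℝ x y) (right_mem_segment ℝ x y)
  · have hz' := hseg hz
    exact ((hf.contDiffAt (hB.mem_nhds hz')).differentiableAt
      (by simp)).hasFDerivAt.hasFDerivWithinAt
  · refine (hH z (hseg hz) x hx).trans ?_
    have h1 : ‖z - x‖ ≤ ‖y - x‖ := norm_sub_le_of_mem_segment hz
    calc K * ‖z - x‖ ^ a ≤ |K| * ‖z - x‖ ^ a :=
          mul_le_mul_of_nonneg_right (le_abs_self K) (Real.rpow_nonneg (norm_nonneg _) _)
      _ ≤ |K| * ‖y - x‖ ^ a :=
          mul_le_mul_of_nonneg_left (Real.rpow_le_rpow (norm_nonneg _) h1 ha.le) (abs_nonneg _)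

/-- LIMD. -/
theorem limd : S_LIMD := by
  intro n E _ _ _ a K B p q ha ha1 hB hc hp hH hq
  have : CompleteSpace E := FiniteDimensional.complete ℝ E
  -- the directional derivatives converge
  have hcau : ∀ x ∈ B, ∀ v : Cn n, ∃ l, Tendsto (fun h => fderiv ℝ (p h) x v) atTop (𝓝 l) := by
    intro x hx v
    apply cauchySeq_tendsto_of_complete
    rw [Metric.cauchySeq_iff']
    intro ε hε
    have h1 : Tendsto (fun t : ℝ => |K| * ‖t • v‖ ^ a * ‖v‖) (𝓝 0) (𝓝 0) := by
      have hcont : Continuous fun t : ℝ => |K| * ‖t • v‖ ^ a * ‖v‖ := by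
        have h2 : Continuous fun t : ℝ => ‖t • v‖ := by fun_prop
        exact (continuous_const.mul ((Real.continuous_rpow_const ha.le).comp h2)).mul
          continuous_const
      have := hcont.tendsto 0
      simpa [Real.zero_rpow ha.ne'] using this
    have h2 : ∀ᶠ t : ℝ in 𝓝[>] 0, |K| * ‖t • v‖ ^ a * ‖v‖ < ε / 4 :=
      (h1.mono_left nhdsWithin_le_nhds).eventually (gt_mem_nhds (by positivity))
    have h3 : ∀ᶠ t : ℝ in 𝓝[>] 0, x + t • v ∈ B := by
      have hcont : Continuous fun t : ℝ => x + t • v := by fun_prop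
      have : Tendsto (fun t : ℝ => x + t • v) (𝓝[>] 0) (𝓝 x) := by
        have := hcont.tendsto 0
        simp only [zero_smul, add_zero] at this
        exact this.mono_left nhdsWithin_le_nhds
      exact this.eventually (hB.mem_nhds hx)
    obtain ⟨t, ht2, ht3, ht0⟩ := (h2.and (h3.and self_mem_nhdsWithin)).exists
    have ht : 0 < t := ht0
    -- the difference quotients converge
    have h4 : ∀ h, ‖fderiv ℝ (p h) x v - t⁻¹ • (p h (x + t • v) - p h x)‖ ≤ ε / 4 := by
      intro h
      have h5 := taylor_HB ha hB hc (hp h) (hH h) hx ht3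
      rw [add_sub_cancel_left] at h5
      have e : fderiv ℝ (p h) x v - t⁻¹ • (p h (x + t • v) - p h x) =
          -(t⁻¹ • (p h (x + t • v) - p h x - fderiv ℝ (p h) x (t • v))) := by
        rw [map_smul, smul_sub t⁻¹ (p h (x + t • v) - p h x), smul_smul, inv_mul_cancel₀ ht.ne',
          one_smul]
        abel
      rw [e, norm_neg, norm_smul, Real.norm_of_nonneg (inv_nonneg.2 ht.le)]
      calc t⁻¹ * ‖p h (x + t • v) - p h x - fderiv ℝ (p h) x (t • v)‖
          ≤ t⁻¹ * (|K| * ‖t • v‖ ^ a * ‖t • v‖) :=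
            mul_le_mul_of_nonneg_left h5 (inv_nonneg.2 ht.le)
        _ = |K| * ‖t • v‖ ^ a * ‖v‖ := by
            rw [norm_smul t v, Real.norm_of_nonneg ht.le]
            field_simp
        _ ≤ ε / 4 := ht2.le
    have h6 : CauchySeq fun h => t⁻¹ • (p h (x + t • v) - p h x) :=
      (((hq _ ht3).sub (hq _ hx)).const_smul t⁻¹).cauchySeq
    obtain ⟨N, hN⟩ := Metric.cauchySeq_iff'.1 h6 (ε / 4) (by positivity)
    refine ⟨N, fun m hm => ?_⟩
    have h7 := hN m hm
    rw [dist_eq_norm] at h7 ⊢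
    have h8 := h4 m
    have h9 := h4 N
    have e : fderiv ℝ (p m) x v - fderiv ℝ (p N) x v =
        (fderiv ℝ (p m) x v - t⁻¹ • (p m (x + t • v) - p m x)) +
        (t⁻¹ • (p m (x + t • v) - p m x) - t⁻¹ • (p N (x + t • v) - p N x)) -
        (fderiv ℝ (p N) x v - t⁻¹ • (p N (x + t • v) - p N x)) := by abel
    rw [e]
    calc _ ≤ ‖(fderiv ℝ (p m) x v - t⁻¹ • (p m (x + t • v) - p m x)) +
        (t⁻¹ • (p m (x + t • v) - p m x) - t⁻¹ • (p N (x + t • v) - p N x))‖ +
        ‖fderiv ℝ (p N) x v - t⁻¹ • (p N (x + t • v) - p N x)‖ := norm_sub_le _ _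
      _ ≤ (‖fderiv ℝ (p m) x v - t⁻¹ • (p m (x + t • v) - p m x)‖ +
        ‖t⁻¹ • (p m (x + t • v) - p m x) - t⁻¹ • (p N (x + t • v) - p N x)‖) +
        ‖fderiv ℝ (p N) x v - t⁻¹ • (p N (x + t • v) - p N x)‖ := by
          gcongr
          exact norm_add_le _ _
      _ < ε := by linarith
  -- the limit of the derivatives
  have hP : ∀ x ∈ B, ∃ P : Cn n →L[ℝ] E,
      ∀ v, Tendsto (fun h => fderiv ℝ (p h) x v) atTop (𝓝 (P v)) := by
    intro x hx
    choose l hl using hcau x hx
    let L : Cn n →ₗ[ℝ] E :=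
      { toFun := l
        map_add' := fun v w => tendsto_nhds_unique (hl (v + w)) (by
          have := (hl v).add (hl w)
          simpa only [map_add] using this)
        map_smul' := fun c v => tendsto_nhds_unique (hl (c • v)) (by
          have := (hl v).const_smul c
          simpa only [map_smul, RingHom.id_apply] using this) }
    exact ⟨LinearMap.toContinuousLinearMap L, fun v => hl v⟩
  choose! P hP using hP
  have htay : ∀ x ∈ B, ∀ y ∈ B, ‖q y - q x - P x (y - x)‖ ≤ |K| * ‖y - x‖ ^ a * ‖y - x‖ := by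
    intro x hx y hy
    have h1 : Tendsto (fun h => ‖p h y - p h x - fderiv ℝ (p h) x (y - x)‖) atTop
        (𝓝 ‖q y - q x - P x (y - x)‖) := (((hq y hy).sub (hq x hx)).sub (hP x hx (y - x))).norm
    exact le_of_tendsto h1 (Eventually.of_forall fun h => taylor_HB ha hB hc (hp h) (hH h) hx hy)
  have hderiv : ∀ x ∈ B, HasFDerivAt q (P x) x := by
    intro x hx
    rw [hasFDerivAt_iff_isLittleO, Asymptotics.isLittleO_iff]
    intro c hc0
    have h1 : Tendsto (fun y : Cn n => |K| * ‖y - x‖ ^ a) (𝓝 x) (𝓝 0) := by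
      have hcont : Continuous fun y : Cn n => |K| * ‖y - x‖ ^ a := by
        have h2 : Continuous fun y : Cn n => ‖y - x‖ := by fun_prop
        exact continuous_const.mul ((Real.continuous_rpow_const ha.le).comp h2)
      have := hcont.tendsto x
      simpa [Real.zero_rpow ha.ne'] using this
    filter_upwards [h1.eventually (gt_mem_nhds hc0), hB.mem_nhds hx] with y hy hyB
    exact (htay x hx y hyB).trans (mul_le_mul_of_nonneg_right hy.le (norm_nonneg _))
  have hfd : ∀ x ∈ B, fderiv ℝ q x = P x := fun x hx => (hderiv x hx).fderiv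
  have hHP : HB a B K fun x => fderiv ℝ q x := by
    intro x hx y hy
    simp only [hfd x hx, hfd y hy]
    have h0 : 0 ≤ K * ‖x - y‖ ^ a := (norm_nonneg _).trans (hH 0 x hx y hy)
    refine ContinuousLinearMap.opNorm_le_bound _ h0 fun v => ?_
    have h1 : Tendsto (fun h => ‖(fderiv ℝ (p h) x - fderiv ℝ (p h) y) v‖) atTop
        (𝓝 ‖(P x - P y) v‖) := by
      have := ((hP x hx v).sub (hP y hy v)).norm
      simpa only [sub_apply] using this
    refine le_of_tendsto h1 (Eventually.of_forall fun h => ?_)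
    exact (ContinuousLinearMap.le_opNorm _ v).trans
      (mul_le_mul_of_nonneg_right (hH h x hx y hy) (norm_nonneg _))
  refine ⟨?_, hHP⟩
  have hcontP : ContinuousOn (fun x => fderiv ℝ q x) B := by
    intro x hx
    rw [ContinuousWithinAt, tendsto_iff_norm_sub_tendsto_zero]
    have h1 : Tendsto (fun y : Cn n => K * ‖y - x‖ ^ a) (𝓝[B] x) (𝓝 0) := by
      have hcont : Continuous fun y : Cn n => K * ‖y - x‖ ^ a := by
        have h2 : Continuous fun y : Cn n => ‖y - x‖ := by fun_prop
        exact continuous_const.mul ((Real.continuous_rpow_const ha.le).comp h2)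
      have := (hcont.tendsto x).mono_left (nhdsWithin_le_nhds (s := B))
      simpa [Real.zero_rpow ha.ne'] using this
    refine squeeze_zero' (Eventually.of_forall fun y => norm_nonneg _) ?_ h1
    filter_upwards [self_mem_nhdsWithin] with y hy
    exact hHP y hy x hx
  have h1 : ContDiffOn ℝ (0 + 1) q B := by
    rw [contDiffOn_succ_iff_fderiv_of_isOpen hB]
    exact ⟨fun x hx => (hderiv x hx).differentiableAt.differentiableWithinAt, by simp,
      contDiffOn_zero.2 hcontP⟩
  simpa using h1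

end Pool.Agent.Helper34.AY
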