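import Pool.Agent.Helper14.AY.GoalsB

/-! # AY: LRG, regularity for linear equations -/

open Complex Metric Set Filter Topology MeasureTheory
open scoped ContDiff ComplexConjugate ComplexOrder Manifold Matrix

namespace Pool.Agent.Helper34.AY

open Pool.Agent.Helper95.Lin Pool.Agent.Helper16.Abund Pool.Agent.Helper92.Orb Pool.Agent.Helper10.SP
  Pool.Agent.Helper95.RK Pool.Agent.Helper57.HS Pool.Agent.Helper14.AY

/-- Finite sums of functions of class `Hk`. -/
lemma Hk_sum (hHCA : S_HCA) {n : ℕ} {a : ℝ} {W : Set (Cn n)} (ha : 0 < a) (ha1 : a ≤ 1)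
    (hW : IsOpen W) {k : ℕ} {ι : Type} (s : Finset ι) (f : ι → Cn n → ℂ)
    (hf : ∀ i ∈ s, Hk a W k (f i)) : Hk a W k fun x => ∑ i ∈ s, f i x := by
  obtain ⟨h1, h2, h3, h4, h5, h6, h7, h8, h9⟩ := hHCA a W ha ha1 hW
  classical
  induction s using Finset.induction_on with
  | empty =>
    simp only [Finset.sum_empty]
    exact h1 ℂ (fun _ => 0) contDiffOn_const k
  | insert i s hi ih =>
    have e : (fun x => ∑ i ∈ insert i s, f i x) = fun x => f i x + ∑ i ∈ s, f i x := by
      funext x
      rw [Finset.sum_insert hi]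
    rw [e]
    exact h4 ℂ _ _ k (hf i (Finset.mem_insert_self i s))
      (ih fun j hj => hf j (Finset.mem_insert_of_mem hj))

/-- LRG. -/
theorem lrg (hDQL : S_DQL) (hHCA : S_HCA) (hHCB : S_HCB) : S_LRG := by
  intro n a W A k
  induction k with
  | zero => intro F v _ _ _ _ _ _ hv _; exact hv
  | succ k ih =>
    intro F v ha ha1 hW hA hAk hF hv heq
    obtain ⟨h1, h2, h3, h4, h5, h6, h7, h8, h9⟩ := hHCA a W ha ha1.le hW
    have hmono : ∀ {E : Type} [NormedAddCommGroup E] [NormedSpace ℝ E] {f : Cn n → E} {l : ℕ},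
        Hk a W (l + 1) f → Hk a W l f := fun h => h2 _ _ _ h
    have hto1 : ∀ {E : Type} [NormedAddCommGroup E] [NormedSpace ℝ E] (l : ℕ) {f : Cn n → E},
        Hk a W (l + 1) f → Hk a W 1 f := by
      intro E _ _ l
      induction l with
      | zero => intro f h; exact h
      | succ l ih => intro f h; exact ih (hmono h)
    have hvk : Hk a W (k + 2) v := ih F v ha ha1 hW hA (fun i j => hmono (hAk i j)) (hmono hF) hv heq
    have hLM : ∀ i j, Hk a W k fun x => LM v x i j := ((hHCB a W ha ha1.le hW).2.1 v k hvk).2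
    have hD := hDQL a W A F v ha ha1 hW hA (fun i j => hto1 k (hAk i j)) (hto1 k hF) hv heq
    refine ⟨?_, fun e => ?_⟩
    · exact hv.1
    · have hRHS : Hk a W k fun x => fderiv ℝ F x e -
          ∑ i, ∑ j, fderiv ℝ (fun y => A y i j) x e * LM v x j i := by
        have hs : Hk a W k fun x => ∑ i, ∑ j, fderiv ℝ (fun y => A y i j) x e * LM v x j i :=
          Hk_sum hHCA ha ha1.le hW _ (fun i x => ∑ j, fderiv ℝ (fun y => A y i j) x e * LM v x j i)
            fun i _ => Hk_sum hHCA ha ha1.le hW _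
              (fun j x => fderiv ℝ (fun y => A y i j) x e * LM v x j i)
              fun j _ => h5 _ _ k ((hAk i j).2 e) (hLM j i)
        have hn : Hk a W k fun x => (-1 : ℂ) *
            ∑ i, ∑ j, fderiv ℝ (fun y => A y i j) x e * LM v x j i :=
          h5 _ _ k (h1 ℂ (fun _ => (-1 : ℂ)) contDiffOn_const k) hs
        refine h8 ℂ _ _ k ?_ (h4 ℂ _ _ k (hF.2 e) hn)
        intro x _
        ring
      exact ih _ _ ha ha1 hW hA (fun i j => hmono (hAk i j)) hRHS (hD e).1 (hD e).2

end Pool.Agent.Helper34.AY
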